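import Mathlib
import Pool.Agent.U6.EK.Stm

/-! Project EK, package MU: Mertens for the densities of the Wilson primes. -/

set_option autoImplicit false

namespace Pool.Agent.U603.EK

open Finset Filter Topology
open Pool.Agent.U923.PP (PW inv_sq_tail gg_nonneg)
open Pool.Agent.Helper92K9.WI (gg)
open Pool.Agent.U6.EK (T_MU)

theorem floor2 : ⌊(2 : ℝ)⌋₊ = 2 := by norm_num

theorem prime_of {u v : ℝ} {p : ℕ} (h : p ∈ PW u v) : p.Prime := by
  unfold PW at h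
  exact (mem_filter.1 h).2

theorem gg_eq {p : ℕ} (hp : p.Prime) : gg p = 1 / (p : ℝ) - 1 / (p : ℝ) ^ 2 := by
  have hp0 : (p : ℝ) ≠ 0 := by
    have := hp.pos
    positivity
  unfold gg
  field_simp

theorem hsq (w : ℝ) : ∑ p ∈ PW 2 w, (1 : ℝ) / (p : ℝ) ^ 2 ≤ 1 / 2 := by
  unfold PW
  rw [floor2]
  refine le_trans ?_ ((inv_sq_tail 2 ⌊w⌋₊ (by norm_num)).trans (by norm_num))
  exact sum_le_sum_of_subset_of_nonneg (filter_subset _ _) fun p _ _ => by positivity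

theorem split_two {N : ℕ} (hN : 2 ≤ N) : ∑ p ∈ (Icc 1 N).filter Nat.Prime, (1 : ℝ) / p =
    1 / 2 + ∑ p ∈ (Ioc 2 N).filter Nat.Prime, (1 : ℝ) / p := by
  have e : (Icc 1 N).filter Nat.Prime = insert 2 ((Ioc 2 N).filter Nat.Prime) := by
    ext p
    rw [mem_insert, mem_filter, mem_filter, mem_Icc, mem_Ioc]
    constructor
    · rintro ⟨⟨a, b⟩, c⟩
      have := c.two_le
      rcases eq_or_lt_of_le this with h | h
      · exact Or.inl h.symm
      · exact Or.inr ⟨⟨h, b⟩, c⟩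
    · rintro (rfl | ⟨⟨a, b⟩, c⟩)
      · exact ⟨⟨by norm_num, hN⟩, Nat.prime_two⟩
      · exact ⟨⟨c.one_le, b⟩, c⟩
  rw [e, sum_insert (by rw [mem_filter, mem_Ioc]; omega)]
  norm_num

theorem first {C₁ : ℝ} (hC₁ : ∀ N : ℕ,
    |∑ p ∈ (Icc 1 N).filter Nat.Prime, (1 : ℝ) / p - Real.log (Real.log N)| ≤ C₁) (w : ℝ)
    (hw : 3 ≤ w) : |∑ p ∈ PW 2 w, gg p - Real.log (Real.log w)| ≤ C₁ + 2 := by
  have hN3 : 3 ≤ ⌊w⌋₊ := Nat.le_floor (by exact_mod_cast hw)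
  have e1 : ∑ p ∈ PW 2 w, gg p =
      ∑ p ∈ PW 2 w, (1 : ℝ) / (p : ℝ) - ∑ p ∈ PW 2 w, (1 : ℝ) / (p : ℝ) ^ 2 := by
    rw [← sum_sub_distrib]
    exact sum_congr rfl fun p hp => gg_eq (prime_of hp)
  have e2 : ∑ p ∈ PW 2 w, (1 : ℝ) / (p : ℝ) =
      ∑ p ∈ (Icc 1 ⌊w⌋₊).filter Nat.Prime, (1 : ℝ) / p - 1 / 2 := by
    rw [split_two (by omega)]
    unfold PW
    rw [floor2]
    ring
  have h1 := hsq w
  have h2 : 0 ≤ ∑ p ∈ PW 2 w, (1 : ℝ) / (p : ℝ) ^ 2 := sum_nonneg fun p _ => by positivity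
  have h3 := abs_le.1 (hC₁ ⌊w⌋₊)
  have hNw : ((⌊w⌋₊ : ℕ) : ℝ) ≤ w := Nat.floor_le (by linarith)
  have hwN : w < (⌊w⌋₊ : ℕ) + 1 := Nat.lt_floor_add_one w
  have hNr : (3 : ℝ) ≤ ((⌊w⌋₊ : ℕ) : ℝ) := by exact_mod_cast hN3
  obtain ⟨N, hN⟩ : ∃ N : ℝ, N = ((⌊w⌋₊ : ℕ) : ℝ) := ⟨_, rfl⟩
  rw [← hN] at h3 hNw hwN hNr
  have hl2 : 0 < Real.log 2 := Real.log_pos (by norm_num)
  have hl2' : Real.log 2 < 1 := lt_trans Real.log_two_lt_d9 (by norm_num)
  have hlN : Real.log 2 ≤ Real.log N := Real.log_le_log (by norm_num) (by linarith)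
  have hlNw : Real.log N ≤ Real.log w := Real.log_le_log (by linarith) hNw
  have hlw : Real.log w ≤ 2 * Real.log N := by
    have : Real.log w ≤ Real.log (2 * N) := Real.log_le_log (by linarith) (by linarith)
    rw [Real.log_mul (by norm_num) (by linarith)] at this
    linarith
  have g1 : Real.log (Real.log N) ≤ Real.log (Real.log w) := Real.log_le_log (by linarith) hlNw
  have g2 : Real.log (Real.log w) ≤ Real.log 2 + Real.log (Real.log N) := by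
    have : Real.log (Real.log w) ≤ Real.log (2 * Real.log N) :=
      Real.log_le_log (by linarith) hlw
    rwa [Real.log_mul (by norm_num) (by linarith)] at this
  rw [e1, e2, abs_le]
  constructor
  · linarith [h3.1]
  · linarith [h3.2]

theorem t_MU : T_MU := by
  obtain ⟨M, hM⟩ := Pool.Agent.H305R2.mertens_inv_tendsto
  obtain ⟨C₁, hC₁⟩ : ∃ C : ℝ, ∀ N : ℕ,
      |∑ p ∈ (Icc 1 N).filter Nat.Prime, (1 : ℝ) / p - Real.log (Real.log N)| ≤ C := by
    obtain ⟨C, hC⟩ := (Metric.isBounded_range_of_tendsto _ hM).exists_norm_le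
    refine ⟨C, fun N => ?_⟩
    have := hC _ ⟨N, rfl⟩
    rwa [Real.norm_eq_abs] at this
  have hC0 : 0 ≤ C₁ := (abs_nonneg _).trans (hC₁ 0)
  refine ⟨2 * (C₁ + 2), by linarith, fun w hw => ?_, fun w y hw hwy => ?_, fun w => ?_⟩
  · have := first hC₁ w hw
    linarith
  · have hy : 3 ≤ y := hw.trans hwy
    have h1 := abs_le.1 (first hC₁ w hw)
    have h2 := abs_le.1 (first hC₁ y hy)
    have hlw : 0 < Real.log w := Real.log_pos (by linarith)
    have hly : 0 < Real.log y := Real.log_pos (by linarith)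
    have e : ∑ p ∈ PW 2 w, gg p + ∑ p ∈ PW w y, gg p = ∑ p ∈ PW 2 y, gg p := by
      unfold PW
      rw [sum_filter, sum_filter, sum_filter]
      exact sum_Ioc_consecutive _ (Nat.floor_le_floor (by linarith)) (Nat.floor_le_floor hwy)
    rw [Real.log_div hly.ne' hlw.ne']
    linarith [h1.1, h2.2]
  · have h1 : ∑ p ∈ PW 2 w, gg p ^ 2 ≤ ∑ p ∈ PW 2 w, (1 : ℝ) / (p : ℝ) ^ 2 := by
      refine sum_le_sum fun p hp => ?_
      have hpp := prime_of hp
      have hp1 : (1 : ℝ) ≤ p := by exact_mod_cast hpp.one_le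
      have g0 := gg_nonneg hpp
      have g1 : gg p ≤ 1 / (p : ℝ) := by
        rw [gg_eq hpp]
        have : 0 ≤ 1 / (p : ℝ) ^ 2 := by positivity
        linarith
      have : gg p ^ 2 ≤ (1 / (p : ℝ)) ^ 2 := pow_le_pow_left₀ g0 g1 2
      rwa [div_pow, one_pow] at this
    have := hsq w
    linarith

end Pool.Agent.U603.EK
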